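import Pool.Agent.MP_6a4325_al.H62.Spec

/-! Locally abelian-by-finite groups. -/

set_option autoImplicit false

namespace Pool.Agent.MP_6a4325_al.H31

open H62 Subgroup
open scoped commutatorElement

variable {G : Type} [Group G]

/-- a functional on the group algebra -/
noncomputable def ell (φ : G → ℚ) (g : G) : MonoidAlgebra ℚ G →ₗ[ℚ] ℚ :=
  Finsupp.linearCombination ℚ (fun h => φ (g * h)) ∘ₗ (MonoidAlgebra.coeffLinearEquiv ℚ).toLinearMap

theorem ell_apply (φ : G → ℚ) (g : G) (x : MonoidAlgebra ℚ G) :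
    ell φ g x = x.coeff.sum fun h c => c * φ (g * h) := by
  simp [ell, Finsupp.linearCombination_apply]

theorem ell_single (φ : G → ℚ) (g h : G) (c : ℚ) :
    ell φ g (MonoidAlgebra.single h c) = c * φ (g * h) := by
  simp [ell]

theorem ell_mul (φ : G → ℚ) (g k : G) (c : ℚ) (x : MonoidAlgebra ℚ G) :
    ell φ g (MonoidAlgebra.single k c * x) = c * ell φ (g * k) x := by
  induction x using MonoidAlgebra.induction_linear with
  | zero => simp
  | add x y hx hy => rw [mul_add, map_add, map_add, hx, hy, mul_add]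
  | single h d => rw [MonoidAlgebra.single_mul_single, ell_single, ell_single, mul_assoc, mul_assoc]

theorem span_ne_top (φ : G → ℚ) (h1 : φ 1 ≠ 0) (T : Set (MonoidAlgebra ℚ G))
    (h : ∀ x ∈ T, ∀ g, (x.coeff.sum fun h c => c * φ (g * h)) = 0) : Ideal.span T ≠ ⊤ := by
  have key : ∀ x ∈ Ideal.span T, ∀ g, ell φ g x = 0 := by
    intro x hx
    induction hx using Submodule.span_induction with
    | mem x hx => exact fun g => (ell_apply φ g x).trans (h x hx g)
    | zero => exact fun g => map_zero _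
    | add x y _ _ hx hy => exact fun g => by rw [map_add, hx, hy, add_zero]
    | smul a x _ hx =>
      intro g
      rw [smul_eq_mul]
      induction a using MonoidAlgebra.induction_linear with
      | zero => simp
      | add a b ha hb => rw [add_mul, map_add, ha, hb, add_zero]
      | single k c => rw [ell_mul, hx, mul_zero]
  intro e
  have := key (MonoidAlgebra.single 1 1) (e ▸ Submodule.mem_top) 1
  rw [ell_single, one_mul, one_mul] at this
  exact h1 this

/-- the set `gs G` as a subgroup -/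
def gsS (G : Type) [Group G] : Subgroup G where
  carrier := gs G
  one_mem' := fun x => ⟨1, one_pos, by simp⟩
  mul_mem' := by
    intro a b ha hb x
    obtain ⟨m, hm, h1⟩ := ha x
    obtain ⟨k, hk, h2⟩ := hb x
    refine ⟨m * k, mul_pos hm hk, Commute.mul_left ?_ ?_⟩
    · rw [pow_mul]; exact Commute.pow_right h1 k
    · rw [mul_comm, pow_mul]; exact Commute.pow_right h2 m
  inv_mem' := by
    intro a ha x
    obtain ⟨m, hm, h1⟩ := ha x
    exact ⟨m, hm, Commute.inv_left h1⟩

open Classical in
/-- the first stage -/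
noncomputable def st0 (G : Type) [Group G] : St G where
  H := ⊥
  T := ⊥
  θ := 1
  f := fun g => if g = 1 then 1 else 0
  le := le_rfl
  conj := by simp
  fin := inferInstance
  inj := fun _ _ _ => Subsingleton.elim _ _
  one := if_pos rfl
  equi := by
    rintro ⟨t, ht⟩ g
    obtain rfl := mem_bot.1 ht
    simp
  off := fun g hg => if_neg fun e => hg (mem_bot.2 e)

theorem t3 : SStep → SBound → ST3 := by
  classical
  intro hS hB G _ hW hL
  refine ⟨gsS G, ?_, fun g hg => hg⟩
  by_contra hD
  haveI : Infinite (G ⧸ gsS G) := not_finite_iff_infinite.1 (finiteIndex_iff_finite_quotient.not.1 hD)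
  let g : ℕ → G := fun i => (Infinite.natEmbedding (G ⧸ gsS G) i).out
  have hg : ∀ i j, ∃ x : G, i ≠ j → ∀ m : ℕ, 0 < m →
      (g i)⁻¹ * g j * x ^ m ≠ x ^ m * ((g i)⁻¹ * g j) := by
    intro i j
    by_contra h
    push Not at h
    have h1 : (g i)⁻¹ * g j ∈ gsS G := fun x => (h x).2
    rw [← QuotientGroup.eq, QuotientGroup.out_eq', QuotientGroup.out_eq'] at h1
    exact (h 1).1 ((Infinite.natEmbedding _).injective h1)
  choose x hx using hg
  have gi : Function.Injective g := fun i j e => by_contra fun h => hx i j h 1 one_pos (by simp [e])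
  let T : ℕ → Finset G := fun k => (Finset.range k).image g ∪
    ((Finset.range k) ×ˢ (Finset.range k)).image fun p => x p.1 p.2
  have hT : ∀ k, T k ⊆ T (k + 1) := fun k => Finset.union_subset_union
    (Finset.image_subset_image (Finset.range_subset_range.2 k.le_succ))
    (Finset.image_subset_image (Finset.product_subset_product
      (Finset.range_subset_range.2 k.le_succ) (Finset.range_subset_range.2 k.le_succ)))
  obtain ⟨s0, h0, -⟩ := hS G (st0 G) (closure (T 0 : Set G)) bot_le ⟨_, rfl⟩ (hL _)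
  have hs : ∀ (k : ℕ) (s : {s : St G // s.H = closure (T k : Set G)}),
      ∃ s' : {s : St G // s.H = closure (T (k + 1) : Set G)}, s.1.ann ⊆ s'.1.ann := by
    intro k s
    obtain ⟨s', h1, h2⟩ := hS G s.1 (closure (T (k + 1) : Set G))
      (s.2.trans_le (Subgroup.closure_mono (Finset.coe_subset.2 (hT k)))) ⟨_, rfl⟩ (hL _)
    exact ⟨⟨s', h1⟩, h2⟩
  choose F hF using hs
  let s : ∀ k, {s : St G // s.H = closure (T k : Set G)} := fun k => Nat.rec ⟨s0, h0⟩ F k
  have hm : Monotone fun k => (s k).1.ann := monotone_nat_of_le_succ fun k => hF k (s k)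
  obtain ⟨K, _, _, _, n, ρ, v, v0, hv⟩ := hW (⋃ k, (s k).1.ann) fun U hU => by
    obtain ⟨k, hk⟩ := hm.directed_le.exists_mem_subset_of_finset_subset_biUnion hU
    exact span_ne_top (s k).1.f (by rw [(s k).1.one]; exact one_ne_zero) _ fun y hy => (hk hy).2
  have hmem : ∀ a ∈ T (n + 1), a ∈ (s (n + 1)).1.H := fun a ha =>
    (s (n + 1)).2.ge (Subgroup.subset_closure ha)
  have := hB G (s (n + 1)).1 K n ρ v v0 (fun y hy => hv y (Set.mem_iUnion.2 ⟨n + 1, hy⟩))
    ((Finset.range (n + 1)).image g)
    (fun a ha => hmem _ (Finset.mem_union_left _ ha)) (by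
      intro a ha b hb hab
      obtain ⟨i, hi, rfl⟩ := Finset.mem_image.1 ha
      obtain ⟨j, hj, rfl⟩ := Finset.mem_image.1 hb
      refine ⟨x i j, hmem _ (Finset.mem_union_right _ ?_), hx i j fun e => hab (e ▸ rfl)⟩
      exact Finset.mem_image.2 ⟨(i, j), Finset.mem_product.2 ⟨hi, hj⟩, rfl⟩)
  rw [Finset.card_image_of_injective _ gi, Finset.card_range] at this
  omega

theorem hw_sub (h : HW G) (D : Subgroup G) : HW D := fun H Q _ f hf =>
  h (H.map D.subtype) Q (f.comp (H.equivMapOfInjective _ D.subtype_injective).symm.toMonoidHom)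
    (hf.comp (H.equivMapOfInjective _ D.subtype_injective).symm.surjective)

theorem fin_map {K : Subgroup G} [K.FiniteIndex] (A : Subgroup K) [A.FiniteIndex] :
    (A.map K.subtype).FiniteIndex :=
  ⟨by rw [index_map_subtype]; exact mul_ne_zero FiniteIndex.index_ne_zero FiniteIndex.index_ne_zero⟩

theorem va_of_fin (K : Subgroup G) [K.FiniteIndex] (h : VA K) : VA G := by
  obtain ⟨A, -, _, hA⟩ := h
  haveI := fin_map A
  refine ⟨(A.map K.subtype).normalCore, inferInstance, inferInstance, fun a ha b hb => ?_⟩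
  obtain ⟨a, h1, rfl⟩ := normalCore_le _ ha
  obtain ⟨b, h2, rfl⟩ := normalCore_le _ hb
  rw [← map_mul, hA a h1 b h2, map_mul]

theorem fin_comm [(center G).FiniteIndex] : Finite (commutator G) := by
  haveI : Finite (commutatorSet G) := by
    refine Finite.of_surjective (fun p : (G ⧸ center G) × (G ⧸ center G) =>
      (⟨⁅p.1.out, p.2.out⁆, commutator_mem_commutatorSet _ _⟩ : commutatorSet G)) ?_
    rintro ⟨_, a, b, rfl⟩
    obtain ⟨z, hz⟩ := QuotientGroup.mk_out_eq_mul (center G) a
    obtain ⟨w, hw⟩ := QuotientGroup.mk_out_eq_mul (center G) b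
    refine ⟨(a, b), Subtype.ext ?_⟩
    have h1 := mem_center_iff.1 z.2
    have h2 := mem_center_iff.1 w.2
    simp only [hz, hw, commutatorElement_def, mul_inv_rev]
    calc a * z * (b * w) * ((z : G)⁻¹ * a⁻¹) * ((w : G)⁻¹ * b⁻¹)
        = a * (z * (b * w)) * (z : G)⁻¹ * a⁻¹ * (w : G)⁻¹ * b⁻¹ := by group
      _ = a * b * (w * a⁻¹) * (w : G)⁻¹ * b⁻¹ := by rw [← h1]; group
      _ = a * b * a⁻¹ * b⁻¹ := by rw [← h2]; group
  infer_instance

theorem fin_cent [Group.FG G] (h : VA G) (t : G) (ht : t ∈ gs G) :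
    (centralizer {t}).FiniteIndex := by
  obtain ⟨A, -, _, hA⟩ := h
  letI : CommGroup A := { (inferInstance : Group A) with
    mul_comm := fun a b => Subtype.ext (hA _ a.2 _ b.2) }
  haveI : ((centralizer {t}).subgroupOf A).FiniteIndex := by
    refine finiteIndex_iff_finite_quotient.2 (CommGroup.finite_of_fg_isMulTorsion _ fun q => ?_)
    obtain ⟨a, rfl⟩ := QuotientGroup.mk_surjective q
    obtain ⟨m, hm, h1⟩ := ht a
    refine isOfFinOrder_iff_pow_eq_one.2 ⟨m, hm, ?_⟩
    rw [← QuotientGroup.mk_pow, QuotientGroup.eq_one_iff, mem_subgroupOf,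
      mem_centralizer_singleton_iff]
    exact h1.symm
  haveI := fin_map ((centralizer {t}).subgroupOf A)
  exact finiteIndex_of_le (map_subtype_le_of A _)
where
  map_subtype_le_of (A B : Subgroup G) : (B.subgroupOf A).map A.subtype ≤ B := by
    rw [subgroupOf_map_subtype]; exact inf_le_left

theorem fin_der (hL : LVA G) (T : Finset G) (hT : ∀ t ∈ T, t ∈ gs G) :
    Finite (⁅closure (T : Set G), closure (T : Set G)⁆ : Subgroup G) := by
  haveI : (center (closure (T : Set G))).FiniteIndex := by
    rw [center_eq_infi' (closure_closure_coe_preimage (k := (T : Set G)))]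
    haveI : Finite (((↑) : closure (T : Set G) → G) ⁻¹' (T : Set G)) :=
      (T.finite_toSet.preimage Subtype.val_injective.injOn).to_subtype
    refine finiteIndex_iInf fun t => fin_cent (hL T) _ fun y => ?_
    obtain ⟨m, hm, h⟩ := hT _ t.2 y
    exact ⟨m, hm, Subtype.ext h⟩
  haveI := fin_comm (G := closure (T : Set G))
  rw [← map_subtype_commutator]
  exact Finite.of_equiv _ (equivMapOfInjective _ _ (subtype_injective _)).toEquiv

theorem mem_der (D : Subgroup G) (U : Finset G) (hU : ∀ g ∈ U, g ∈ (⁅D, D⁆ : Subgroup G)) :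
    ∃ T : Finset G, (∀ t ∈ T, t ∈ D) ∧
      ∀ g ∈ U, g ∈ (⁅closure (T : Set G), closure (T : Set G)⁆ : Subgroup G) := by
  classical
  have mono : ∀ {T T' : Finset G}, T ⊆ T' → (⁅closure (T : Set G), closure (T : Set G)⁆ :
      Subgroup G) ≤ ⁅closure (T' : Set G), closure (T' : Set G)⁆ := fun h =>
    commutator_mono (Subgroup.closure_mono (Finset.coe_subset.2 h))
      (Subgroup.closure_mono (Finset.coe_subset.2 h))
  have key : ∀ g ∈ (⁅D, D⁆ : Subgroup G), ∃ T : Finset G, (∀ t ∈ T, t ∈ D) ∧
      g ∈ (⁅closure (T : Set G), closure (T : Set G)⁆ : Subgroup G) := by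
    intro g hg
    rw [Subgroup.commutator_def] at hg
    induction hg using closure_induction with
    | mem g hg =>
      obtain ⟨a, ha, b, hb, rfl⟩ := hg
      exact ⟨{a, b}, by simp [ha, hb], commutator_mem_commutator (Subgroup.subset_closure (by simp))
        (Subgroup.subset_closure (by simp))⟩
    | one => exact ⟨∅, by simp, one_mem _⟩
    | mul a b _ _ ha hb =>
      obtain ⟨T, h1, h2⟩ := ha
      obtain ⟨T', h3, h4⟩ := hb
      exact ⟨T ∪ T', fun t ht => (Finset.mem_union.1 ht).elim (h1 t) (h3 t),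
        mul_mem (mono Finset.subset_union_left h2) (mono Finset.subset_union_right h4)⟩
    | inv a _ ha =>
      obtain ⟨T, h1, h2⟩ := ha
      exact ⟨T, h1, inv_mem h2⟩
  choose! T h1 h2 using key
  refine ⟨U.biUnion T, fun t ht => ?_, fun g hg =>
    mono (Finset.subset_biUnion_of_mem T hg) (h2 g (hU g hg))⟩
  obtain ⟨g, hg, ht⟩ := Finset.mem_biUnion.1 ht
  exact h1 g (hU g hg) t ht

theorem loc : ST3 → ST12 → SLoc := by
  classical
  intro h3 h12 G _ hW hL
  obtain ⟨D, _, hD⟩ := h3 G (hW ⊤ G (⊤ : Subgroup G).subtype fun g => ⟨⟨g, trivial⟩, rfl⟩).2.1 hL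
  refine va_of_fin D (h12 D (hw_sub hW D) fun U hU => ?_)
  obtain ⟨T, h1, h2⟩ := mem_der D (U.image D.subtype) fun g hg => by
    obtain ⟨u, hu, rfl⟩ := Finset.mem_image.1 hg
    rw [← map_subtype_commutator]
    exact mem_map_of_mem _ (hU u hu)
  haveI := fin_der hL T fun t ht => hD t (h1 t ht)
  have hle : closure (U : Set D) ≤
      (⁅closure (T : Set G), closure (T : Set G)⁆ : Subgroup G).comap D.subtype :=
    (closure_le _).2 fun u hu => h2 _ (Finset.mem_image_of_mem _ hu)
  exact Finite.of_injective (fun u : closure (U : Set D) =>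
    (⟨u.1.1, hle u.2⟩ : (⁅closure (T : Set G), closure (T : Set G)⁆ : Subgroup G)))
    fun a b e => Subtype.ext (Subtype.ext (congrArg Subtype.val e :))

end Pool.Agent.MP_6a4325_al.H31
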